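import Mathlib

/-!
# Strongly 2-divisible graphs: the gadget graph

Literals `x j t` (`j ≤ M`), clause vertices `y i` (`i < M`), adjacent to the literals that are not in
clause `i`, and for each `i < M` the path `x i ± - a i - b i - y i - c i - d i - x (i+1) ±`.
-/

set_option autoImplicit false

namespace Pool.Agent.TH660.SD

/-- the vertices of the gadget graph -/
inductive Vx : Type
  | x (i : ℕ) (s : Bool)
  | y (i : ℕ)
  | a (i : ℕ)
  | b (i : ℕ)
  | c (i : ℕ)
  | d (i : ℕ)
deriving DecidableEq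

open Vx

/-- adjacency in one direction; `C i t j` means that the literal `(t, j)` is in clause `i` -/
def Adj1 (C : ℕ → Bool → ℕ → Prop) : Vx → Vx → Prop
  | x i _, x j _ => i ≠ j
  | y i, x j t => ¬ C i t j
  | a i, x j _ => i = j
  | a i, b j => i = j
  | b i, y j => i = j
  | y i, c j => i = j
  | c i, d j => i = j
  | d i, x j _ => j = i + 1
  | _, _ => False

/-- adjacency -/
def Adj (C : ℕ → Bool → ℕ → Prop) (u v : Vx) : Prop := Adj1 C u v ∨ Adj1 C v u

variable {C : ℕ → Bool → ℕ → Prop}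

theorem Adj.symm {u v : Vx} (h : Adj C u v) : Adj C v u := Or.symm h

theorem adj_a {i : ℕ} {u : Vx} : Adj C (a i) u ↔ (∃ s, u = x i s) ∨ u = b i := by
  cases u <;> simp [Adj, Adj1, eq_comm]

theorem adj_b {i : ℕ} {u : Vx} : Adj C (b i) u ↔ u = a i ∨ u = y i := by
  cases u <;> simp [Adj, Adj1, eq_comm]

theorem adj_c {i : ℕ} {u : Vx} : Adj C (c i) u ↔ u = y i ∨ u = d i := by
  cases u <;> simp [Adj, Adj1, eq_comm]

theorem adj_d {i : ℕ} {u : Vx} : Adj C (d i) u ↔ u = c i ∨ ∃ s, u = x (i + 1) s := by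
  cases u <;> simp [Adj, Adj1, eq_comm]

theorem adj_y {i : ℕ} {u : Vx} : Adj C (y i) u ↔ u = b i ∨ u = c i ∨ ∃ j t, u = x j t ∧ ¬ C i t j := by
  cases u with
  | x j t =>
    simp only [Adj, Adj1, or_false, reduceCtorEq, false_or]
    constructor
    · intro h
      exact ⟨j, t, rfl, h⟩
    · rintro ⟨j', t', h, h'⟩
      injection h with h1 h2
      rw [h1, h2]
      exact h'
  | _ => simp [Adj, Adj1, eq_comm]

theorem adj_xx {i j : ℕ} {s t : Bool} : Adj C (x i s) (x j t) ↔ i ≠ j := by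
  simp only [Adj, Adj1]
  constructor
  · rintro (h | h)
    · exact h
    · exact h.symm
  · exact Or.inl

theorem adj_yx {i j : ℕ} {t : Bool} : Adj C (y i) (x j t) ↔ ¬ C i t j := by
  simp [Adj, Adj1]

/-- `K` is a maximal clique of the graph induced by `H` -/
def MaxCl (C : ℕ → Bool → ℕ → Prop) (H K : Set Vx) : Prop :=
  K ⊆ H ∧ (∀ u ∈ K, ∀ v ∈ K, u ≠ v → Adj C u v) ∧
    ∀ w ∈ H, (∀ u ∈ K, u ≠ w → Adj C u w) → w ∈ K

/-- the graph induced by `H` has a 2-clique-colouring -/
def Good (C : ℕ → Bool → ℕ → Prop) (H : Set Vx) : Prop :=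
  ∃ χ : Vx → Bool, ∀ K, MaxCl C H K → K.Nontrivial → ∃ u ∈ K, ∃ v ∈ K, χ u ≠ χ v

/-- the index of the vertex is in the right range -/
def val (M : ℕ) : Vx → Prop
  | x i _ => i ≤ M
  | y i => i < M
  | a i => i < M
  | b i => i < M
  | c i => i < M
  | d i => i < M

/-- general form of the colouring lemma -/
theorem good_of (H : Set Vx) (χ : Vx → Bool)
    (hax : ∀ i s, a i ∈ H → x i s ∈ H → χ (a i) ≠ χ (x i s))
    (hab : ∀ i, a i ∈ H → b i ∈ H → χ (a i) ≠ χ (b i))
    (hby : ∀ i, b i ∈ H → y i ∈ H → χ (b i) ≠ χ (y i))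
    (hyc : ∀ i, y i ∈ H → c i ∈ H → χ (y i) ≠ χ (c i))
    (hcd : ∀ i, c i ∈ H → d i ∈ H → χ (c i) ≠ χ (d i))
    (hdx : ∀ i s, d i ∈ H → x (i + 1) s ∈ H → χ (d i) ≠ χ (x (i + 1) s))
    (hy : ∀ i, y i ∈ H → ∀ K, MaxCl C H K → y i ∈ K → (∀ u ∈ K, u ≠ y i → ∃ j t, u = x j t ∧ ¬ C i t j) →
      K.Nontrivial → ∃ u ∈ K, ∃ v ∈ K, χ u ≠ χ v)
    (hx : ∀ K, MaxCl C H K → (∀ u ∈ K, ∃ j t, u = x j t) → K.Nontrivial →
      ∃ u ∈ K, ∃ v ∈ K, χ u ≠ χ v) : Good C H := by
  refine ⟨χ, fun K hK hnt => ?_⟩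
  have hKH := hK.1
  have hcl := hK.2.1
  by_cases ha : ∃ i, a i ∈ K
  · obtain ⟨i, hi⟩ := ha
    obtain ⟨u, hu, hne⟩ := hnt.exists_ne (a i)
    rcases adj_a.1 (hcl _ hi _ hu hne.symm) with ⟨s, rfl⟩ | rfl
    · exact ⟨_, hi, _, hu, hax i s (hKH hi) (hKH hu)⟩
    · exact ⟨_, hi, _, hu, hab i (hKH hi) (hKH hu)⟩
  by_cases hb : ∃ i, b i ∈ K
  · obtain ⟨i, hi⟩ := hb
    obtain ⟨u, hu, hne⟩ := hnt.exists_ne (b i)
    rcases adj_b.1 (hcl _ hi _ hu hne.symm) with rfl | rfl
    · exact absurd ⟨_, hu⟩ ha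
    · exact ⟨_, hi, _, hu, hby i (hKH hi) (hKH hu)⟩
  by_cases hc : ∃ i, c i ∈ K
  · obtain ⟨i, hi⟩ := hc
    obtain ⟨u, hu, hne⟩ := hnt.exists_ne (c i)
    rcases adj_c.1 (hcl _ hi _ hu hne.symm) with rfl | rfl
    · exact ⟨_, hu, _, hi, hyc i (hKH hu) (hKH hi)⟩
    · exact ⟨_, hi, _, hu, hcd i (hKH hi) (hKH hu)⟩
  by_cases hd : ∃ i, d i ∈ K
  · obtain ⟨i, hi⟩ := hd
    obtain ⟨u, hu, hne⟩ := hnt.exists_ne (d i)
    rcases adj_d.1 (hcl _ hi _ hu hne.symm) with rfl | ⟨s, rfl⟩
    · exact absurd ⟨_, hu⟩ hc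
    · exact ⟨_, hi, _, hu, hdx i s (hKH hi) (hKH hu)⟩
  by_cases hyK : ∃ i, y i ∈ K
  · obtain ⟨i, hi⟩ := hyK
    refine hy i (hKH hi) K hK hi (fun u hu hne => ?_) hnt
    rcases adj_y.1 (hcl _ hi _ hu hne.symm) with rfl | rfl | h
    · exact absurd ⟨_, hu⟩ hb
    · exact absurd ⟨_, hu⟩ hc
    · exact h
  · refine hx K hK (fun u hu => ?_) hnt
    cases u with
    | x i s => exact ⟨i, s, rfl⟩
    | y i => exact absurd ⟨_, hu⟩ hyK
    | a i => exact absurd ⟨_, hu⟩ ha
    | b i => exact absurd ⟨_, hu⟩ hb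
    | c i => exact absurd ⟨_, hu⟩ hc
    | d i => exact absurd ⟨_, hu⟩ hd

/-- If no maximal clique with at least two vertices consists of literals, the canonical colouring
works. -/
theorem good_canonical (H : Set Vx)
    (h : ∀ K, MaxCl C H K → (∀ u ∈ K, ∃ j t, u = x j t) → ¬ K.Nontrivial) : Good C H := by
  refine good_of H (fun v => match v with
    | x _ _ => false
    | y _ => true
    | a _ => true
    | b _ => false
    | c _ => false
    | d _ => true) ?_ ?_ ?_ ?_ ?_ ?_ ?_ ?_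
  · intros; simp
  · intros; simp
  · intros; simp
  · intros; simp
  · intros; simp
  · intros; simp
  · intro i _ K _ hi hu hnt
    obtain ⟨u, huK, hne⟩ := hnt.exists_ne (y i)
    obtain ⟨j, t, rfl, _⟩ := hu u huK hne
    exact ⟨_, hi, _, huK, by simp⟩
  · intro K hK hu hnt
    exact absurd hnt (h K hK hu)

/-- a maximal clique that consists of literals and possibly `y i` meets every present variable (with
a literal adjacent to `y i`) -/
theorem meets {H K : Set Vx} (hK : MaxCl C H K) {j : ℕ} {t : Bool} (hj : x j t ∈ H)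
    (h : ∀ u ∈ K, (∃ k s, u = x k s) ∨ Adj C u (x j t)) : ∃ s, x j s ∈ K := by
  by_contra hno
  push Not at hno
  refine hno t (hK.2.2 _ hj fun u hu hne => ?_)
  rcases h u hu with ⟨k, s, rfl⟩ | h
  · rw [adj_xx]
    rintro rfl
    exact hno s hu
  · exact h

/-- **The broken chain.** -/
theorem good_of_break (h1 : ∀ i s, ¬ C i s i ∧ ¬ C i s (i + 1)) (H : Set Vx) (q r : ℕ) (hqr : q < r)
    (hq : ∃ s, x q s ∈ H) (hr : ∃ s, x r s ∈ H)
    (hbr : (¬ ∃ s, x (q + 1) s ∈ H) ∨
      ¬ (a q ∈ H ∧ b q ∈ H ∧ y q ∈ H ∧ c q ∈ H ∧ d q ∈ H)) : Good C H := by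
  classical
  obtain ⟨sq, hq⟩ := hq
  obtain ⟨sr, hr⟩ := hr
  obtain ⟨P, hP⟩ : ∃ P : Prop, P ↔ ∃ s, x (q + 1) s ∈ H := ⟨_, Iff.rfl⟩
  obtain ⟨NL, hNL⟩ : ∃ NL : ℕ → Prop, ∀ i, NL i ↔ ∃ j ≤ q, ∃ t, x j t ∈ H ∧ ¬ C i t j :=
    ⟨fun i => ∃ j ≤ q, ∃ t, x j t ∈ H ∧ ¬ C i t j, fun _ => Iff.rfl⟩
  obtain ⟨NR, hNR⟩ : ∃ NR : ℕ → Prop, ∀ i, NR i ↔ ∃ j, q < j ∧ ∃ t, x j t ∈ H ∧ ¬ C i t j :=
    ⟨fun i => ∃ j, q < j ∧ ∃ t, x j t ∈ H ∧ ¬ C i t j, fun _ => Iff.rfl⟩
  obtain ⟨U, hU⟩ : ∃ U : Prop, U ↔ (¬ P ∨ (y q ∈ H ∧ a q ∈ H ∧ b q ∈ H)) := ⟨_, Iff.rfl⟩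
  -- colours of the clause vertices
  obtain ⟨cy, hcy⟩ : ∃ cy : ℕ → Bool, ∀ i, cy i =
      if i < q then (if NL i then false else true)
      else if q < i then (if NR i then true else false)
      else (if U then false else true) := ⟨_, fun _ => rfl⟩
  obtain ⟨χ, hχ⟩ : ∃ χ : Vx → Bool, χ = fun v => match v with
    | x j _ => decide (j ≤ q)
    | y i => cy i
    | a i => if i = q then false else cy i
    | b i => if i = q then (if y q ∈ H ∧ ¬ U then false else true) else !(cy i)
    | c i => if i = q then (if U then true else false) else !(cy i)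
    | d i => if i = q then (if P then true else false) else cy i := ⟨_, rfl⟩
  have cx : ∀ j t, χ (x j t) = decide (j ≤ q) := fun j t => by rw [hχ]
  have ccy : ∀ i, χ (y i) = cy i := fun i => by rw [hχ]
  have ca : ∀ i, χ (a i) = if i = q then false else cy i := fun i => by rw [hχ]
  have cb : ∀ i, χ (b i) = if i = q then (if y q ∈ H ∧ ¬ U then false else true) else !(cy i) :=
    fun i => by rw [hχ]
  have cc : ∀ i, χ (c i) = if i = q then (if U then true else false) else !(cy i) :=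
    fun i => by rw [hχ]
  have cd : ∀ i, χ (d i) = if i = q then (if P then true else false) else cy i :=
    fun i => by rw [hχ]
  have cyq : cy q = if U then false else true := by rw [hcy]; simp
  -- present ends
  have endL : ∀ i, i < q → ∀ s, x i s ∈ H → cy i = false := by
    intro i hi s hs
    have : NL i := (hNL i).2 ⟨i, hi.le, s, hs, (h1 i s).1⟩
    rw [hcy]; simp [hi, this]
  have endL' : ∀ i, i < q → ∀ s, x (i + 1) s ∈ H → cy i = false := by
    intro i hi s hs
    have : NL i := (hNL i).2 ⟨i + 1, hi, s, hs, (h1 i s).2⟩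
    rw [hcy]; simp [hi, this]
  have endR : ∀ i, q < i → ∀ s, x i s ∈ H → cy i = true := by
    intro i hi s hs
    have : NR i := (hNR i).2 ⟨i, hi, s, hs, (h1 i s).1⟩
    rw [hcy]; simp [hi, this, not_lt.2 hi.le]
  have endR' : ∀ i, q < i → ∀ s, x (i + 1) s ∈ H → cy i = true := by
    intro i hi s hs
    have : NR i := (hNR i).2 ⟨i + 1, by omega, s, hs, (h1 i s).2⟩
    rw [hcy]; simp [hi, this, not_lt.2 hi.le]
  -- the clause vertices
  have keyF : ∀ i, y i ∈ H → cy i = false → NL i ∨ (¬ NL i ∧ ¬ NR i) := by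
    intro i hi h
    by_cases hNLi : NL i
    · exact Or.inl hNLi
    right
    refine ⟨hNLi, ?_⟩
    rcases lt_trichotomy i q with hlt | rfl | hgt
    · rw [hcy] at h; simp [hlt, hNLi] at h
    · exact absurd ((hNL i).2 ⟨i, le_rfl, sq, hq, (h1 i sq).1⟩) hNLi
    · rw [hcy] at h
      simp only [not_lt.2 hgt.le, hgt, if_true, if_false] at h
      intro hNRi
      simp [hNRi] at h
  have keyT : ∀ i, y i ∈ H → cy i = true → NR i ∨ (¬ NL i ∧ ¬ NR i) := by
    intro i hi h
    by_cases hNRi : NR i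
    · exact Or.inl hNRi
    right
    refine ⟨?_, hNRi⟩
    rcases lt_trichotomy i q with hlt | rfl | hgt
    · rw [hcy] at h
      simp only [hlt, if_true] at h
      intro hNLi
      simp [hNLi] at h
    · exfalso
      rw [cyq] at h
      have hnU : ¬ U := by
        intro hU'
        simp [hU'] at h
      rw [hU] at hnU
      push Not at hnU
      obtain ⟨s, hs⟩ := hP.1 hnU.1
      exact hNRi ((hNR i).2 ⟨i + 1, by omega, s, hs, (h1 i s).2⟩)
    · rw [hcy] at h
      simp [not_lt.2 hgt.le, hgt, hNRi] at h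
  refine good_of H χ ?_ ?_ ?_ ?_ ?_ ?_ ?_ ?_
  · intro i s hai hxi
    rw [ca, cx]
    rcases lt_trichotomy i q with hlt | rfl | hgt
    · rw [if_neg hlt.ne, endL i hlt s hxi]; simp [hlt.le]
    · simp
    · rw [if_neg hgt.ne', endR i hgt s hxi]; simp [not_le.2 hgt]
  · intro i hai hbi
    rw [ca, cb]
    by_cases hiq : i = q
    · subst hiq
      have : ¬ (y i ∈ H ∧ ¬ U) := by
        rintro ⟨hy', hU'⟩
        exact hU' (hU.2 (Or.inr ⟨hy', hai, hbi⟩))
      simp [this]
    · simp [hiq]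
  · intro i hbi hyi
    rw [cb, ccy]
    by_cases hiq : i = q
    · subst hiq
      rw [cyq]
      by_cases hU' : U
      · simp [hU']
      · simp [hU', hyi]
    · simp [hiq]
  · intro i hyi hci
    rw [cc, ccy]
    by_cases hiq : i = q
    · subst hiq
      rw [cyq]
      by_cases hU' : U
      · simp [hU']
      · simp [hU']
    · simp [hiq]
  · intro i hci hdi
    rw [cc, cd]
    by_cases hiq : i = q
    · subst hiq
      by_cases hP' : P
      · have hnU : ¬ U := by
          intro hU'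
          rcases hU.1 hU' with h | ⟨hy', ha', hb'⟩
          · exact h hP'
          · rcases hbr with h | h
            · exact h (hP.1 hP')
            · exact h ⟨ha', hb', hy', hci, hdi⟩
        simp [hP', hnU]
      · have hU' : U := hU.2 (Or.inl hP')
        simp [hP', hU']
    · simp [hiq]
  · intro i s hdi hxi
    rw [cd, cx]
    rcases lt_trichotomy i q with hlt | rfl | hgt
    · rw [if_neg hlt.ne, endL' i hlt s hxi]
      have : i + 1 ≤ q := hlt
      simp [this]
    · have hP' : P := hP.2 ⟨s, hxi⟩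
      simp [hP']
    · rw [if_neg hgt.ne', endR' i hgt s hxi]
      have : ¬ i + 1 ≤ q := by omega
      simp [this]
  · intro i hyi K hK hiK hu hnt
    obtain ⟨u, huK, hne⟩ := hnt.exists_ne (y i)
    obtain ⟨j, t, rfl, hCj⟩ := hu u huK hne
    have hmeet : ∀ j t, x j t ∈ H → ¬ C i t j → ∃ s, x j s ∈ K := by
      intro j t hj hCj
      refine meets hK hj fun u hu' => ?_
      by_cases he : u = y i
      · subst he
        exact Or.inr (adj_yx.2 hCj)
      · obtain ⟨k, s, rfl, _⟩ := hu u hu' he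
        exact Or.inl ⟨k, s, rfl⟩
    have hN : NL i ∨ NR i := by
      rcases le_or_gt j q with h | h
      · exact Or.inl ((hNL i).2 ⟨j, h, t, hK.1 huK, hCj⟩)
      · exact Or.inr ((hNR i).2 ⟨j, h, t, hK.1 huK, hCj⟩)
    by_cases hc' : cy i = true
    · have hNRi : NR i := by
        rcases keyT i hyi hc' with h | h
        · exact h
        · tauto
      obtain ⟨j', hj', t', hx', hC'⟩ := (hNR i).1 hNRi
      obtain ⟨s, hs⟩ := hmeet j' t' hx' hC'
      refine ⟨_, hiK, _, hs, ?_⟩
      rw [ccy, cx, hc']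
      simp [not_le.2 hj']
    · have hc'' : cy i = false := by simpa using hc'
      have hNLi : NL i := by
        rcases keyF i hyi hc'' with h | h
        · exact h
        · tauto
      obtain ⟨j', hj', t', hx', hC'⟩ := (hNL i).1 hNLi
      obtain ⟨s, hs⟩ := hmeet j' t' hx' hC'
      refine ⟨_, hiK, _, hs, ?_⟩
      rw [ccy, cx, hc'']
      simp [hj']
  · intro K hK hu hnt
    have hmeet : ∀ j t, x j t ∈ H → ∃ s, x j s ∈ K := fun j t hj =>
      meets hK hj fun u hu' => Or.inl (hu u hu')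
    obtain ⟨s, hs⟩ := hmeet q sq hq
    obtain ⟨s', hs'⟩ := hmeet r sr hr
    refine ⟨_, hs, _, hs', ?_⟩
    rw [cx, cx]
    simp [not_le.2 hqr]

/-- **All induced subgraphs are 2-clique-colourable if the clauses cannot be satisfied.** -/
theorem good_of_unsat (M : ℕ) (h1 : ∀ i s, ¬ C i s i ∧ ¬ C i s (i + 1))
    (h2 : ∀ α β, α < β → β ≤ M → ¬ (α = 0 ∧ β = M) →
      ∃ i, α ≤ i ∧ i < β ∧ ∀ j t, α ≤ j → j ≤ β → ¬ C i t j)
    (h3 : ∀ τ : ℕ → Bool, ∃ i < M, ∀ j ≤ M, ¬ C i (τ j) j)
    (H : Set Vx) (hH : ∀ v ∈ H, val M v) : Good C H := by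
  classical
  by_cases hK : ∃ K, MaxCl C H K ∧ (∀ u ∈ K, ∃ j t, u = x j t) ∧ K.Nontrivial
  · obtain ⟨K, hK, hu, hnt⟩ := hK
    obtain ⟨P, hP⟩ : ∃ P : ℕ → Prop, ∀ j, P j ↔ ∃ s, x j s ∈ H :=
      ⟨fun j => ∃ s, x j s ∈ H, fun _ => Iff.rfl⟩
    have hPM : ∀ j, P j → j ≤ M := by
      intro j hj
      obtain ⟨s, hs⟩ := (hP j).1 hj
      exact hH _ hs
    by_cases hbr : ∃ q r, q < r ∧ P q ∧ P r ∧ (¬ P (q + 1) ∨
        ¬ (a q ∈ H ∧ b q ∈ H ∧ y q ∈ H ∧ c q ∈ H ∧ d q ∈ H))
    · obtain ⟨q, r, hqr, hq, hr, h⟩ := hbr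
      rw [hP] at hq hr h
      exact good_of_break h1 H q r hqr hq hr h
    · exfalso
      push Not at hbr
      -- two present variables
      obtain ⟨u, huK, v, hvK, huv⟩ := hnt
      obtain ⟨i, s, rfl⟩ := hu u huK
      obtain ⟨j, t, rfl⟩ := hu v hvK
      have hij : i ≠ j := adj_xx.1 (hK.2.1 _ huK _ hvK huv)
      have hPi : P i := (hP i).2 ⟨s, hK.1 huK⟩
      have hPj : P j := (hP j).2 ⟨t, hK.1 hvK⟩
      have hex : ∃ n, P n := ⟨i, hPi⟩
      obtain ⟨α, hα⟩ : ∃ α, α = Nat.find hex := ⟨_, rfl⟩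
      have hPα : P α := by rw [hα]; exact Nat.find_spec hex
      have hminα : ∀ n, P n → α ≤ n := fun n hn => by rw [hα]; exact Nat.find_min' hex hn
      obtain ⟨β, hβ⟩ : ∃ β, β = Nat.findGreatest P M := ⟨_, rfl⟩
      have hPβ : P β := by
        rw [hβ]
        exact Nat.findGreatest_spec (hPM i hPi) hPi
      have hmaxβ : ∀ n, P n → n ≤ β := fun n hn => by
        rw [hβ]; exact Nat.le_findGreatest (hPM n hn) hn
      have hαβ : α < β := by
        have h1' := hminα i hPi
        have h2' := hminα j hPj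
        have h3' := hmaxβ i hPi
        have h4' := hmaxβ j hPj
        omega
      have hβM : β ≤ M := hPM β hPβ
      have hall : ∀ k, α + k ≤ β → P (α + k) := by
        intro k
        induction k with
        | zero => intro _; exact hPα
        | succ k ih =>
          intro hk
          exact (hbr (α + k) β (by omega) (ih (by omega)) hPβ).1
      have hyall : ∀ k, α ≤ k → k < β → y k ∈ H := by
        intro k h1' h2'
        have := (hbr k β h2' (by
          have := hall (k - α) (by omega)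
          rwa [Nat.add_sub_cancel' h1'] at this) hPβ).2
        exact this.2.2.1
      have hmeet : ∀ j, P j → ∃ s, x j s ∈ K := fun j hj => by
        obtain ⟨s, hs⟩ := (hP j).1 hj
        exact meets hK hs fun u hu' => Or.inl (hu u hu')
      -- each clause of an intact link is satisfied
      have hsat : ∀ k, α ≤ k → k < β → ∃ j t, x j t ∈ K ∧ C k t j := by
        intro k h1' h2'
        by_contra hno
        push Not at hno
        have hin : y k ∈ K := by
          refine hK.2.2 _ (hyall k h1' h2') fun u hu' _ => ?_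
          obtain ⟨j, t, rfl⟩ := hu u hu'
          exact (adj_yx.2 (hno j t hu')).symm
        obtain ⟨j, t, h⟩ := hu _ hin
        exact absurd h (by simp)
      by_cases hfull : α = 0 ∧ β = M
      · obtain ⟨rfl, rfl⟩ := hfull
        have hτ : ∀ j, ∃ s, j ≤ β → x j s ∈ K := by
          intro j
          by_cases hj : j ≤ β
          · have hPj' : P j := by simpa using hall j (by omega)
            obtain ⟨s, hs⟩ := hmeet j hPj'
            exact ⟨s, fun _ => hs⟩
          · exact ⟨true, fun h => absurd h hj⟩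
        choose τ hτ using hτ
        obtain ⟨k, hk, hk'⟩ := h3 τ
        obtain ⟨j', t', hj', hC⟩ := hsat k (by omega) hk
        have hj'β : j' ≤ β := hmaxβ j' ((hP j').2 ⟨t', hK.1 hj'⟩)
        have : t' = τ j' := by
          by_contra hne
          have hne' : x j' t' ≠ x j' (τ j') := by
            intro he
            injection he with _ he
            exact hne he
          exact adj_xx.1 (hK.2.1 _ hj' _ (hτ j' hj'β) hne') rfl
        rw [this] at hC
        exact hk' j' hj'β hC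
      · obtain ⟨k, hk1, hk2, hk3⟩ := h2 α β hαβ hβM hfull
        obtain ⟨j', t', hj', hC⟩ := hsat k hk1 hk2
        have hPj' : P j' := (hP j').2 ⟨t', hK.1 hj'⟩
        exact hk3 j' t' (hminα _ hPj') (hmaxβ _ hPj') hC
  · refine good_canonical H fun K hK' hu hnt => hK ⟨K, hK', hu, hnt⟩

/-! ### Satisfiable clauses -/

theorem pair_max {H : Set Vx} {u v : Vx} (hu : u ∈ H) (hv : v ∈ H) (hadj : Adj C u v)
    (hne : u ≠ v) (hno : ∀ w, Adj C u w → Adj C v w → False) : MaxCl C H {u, v} := by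
  refine ⟨?_, ?_, ?_⟩
  · rintro w (rfl | rfl)
    · exact hu
    · exact hv
  · rintro w (rfl | rfl) z (rfl | rfl) hwz
    · exact absurd rfl hwz
    · exact hadj
    · exact hadj.symm
    · exact absurd rfl hwz
  · intro w _ hw
    by_contra hnot
    have h1 : u ≠ w := fun h => hnot (by rw [h]; exact Or.inl rfl)
    have h2 : v ≠ w := fun h => hnot (by rw [h]; exact Or.inr rfl)
    exact hno w (hw u (Or.inl rfl) h1) (hw v (Or.inr rfl) h2)

/-- **If the clauses can be satisfied, the whole graph is not 2-clique-colourable.** -/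
theorem not_good_of_sat (M : ℕ) (hM : 1 ≤ M) (τ : ℕ → Bool)
    (hτ : ∀ i < M, ∃ j ≤ M, C i (τ j) j) : ¬ Good C {v | val M v} := by
  rintro ⟨χ, hχ⟩
  have hpair : ∀ u v : Vx, val M u → val M v → u ≠ v → Adj C u v →
      (∀ w, Adj C u w → Adj C v w → False) → χ u ≠ χ v := by
    intro u v hu hv hne hadj hno he
    have hnt : ({u, v} : Set Vx).Nontrivial := ⟨u, Or.inl rfl, v, Or.inr rfl, hne⟩
    obtain ⟨w, hw, z, hz, h⟩ := hχ {u, v} (pair_max hu hv hadj hne hno) hnt
    rcases hw with rfl | rfl <;> rcases hz with rfl | rfl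
    · exact h rfl
    · exact h he
    · exact h he.symm
    · exact h rfl
  have flip : ∀ p q r : Bool, p ≠ q → q ≠ r → p = r := by decide
  have hstep : ∀ i < M, ∀ s t, χ (x i s) = χ (x (i + 1) t) := by
    intro i hi s t
    have e1 : χ (x i s) ≠ χ (a i) := by
      refine hpair _ _ (show i ≤ M from hi.le) hi (by simp) (adj_a.2 (Or.inl ⟨s, rfl⟩)).symm ?_
      intro w hw hw'
      rcases adj_a.1 hw' with ⟨s', rfl⟩ | rfl
      · exact adj_xx.1 hw rfl
      · rcases adj_b.1 hw.symm with h | h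
        · exact absurd h (by simp)
        · exact absurd h (by simp)
    have e2 : χ (a i) ≠ χ (b i) := by
      refine hpair _ _ hi hi (by simp) (adj_a.2 (Or.inr rfl)) ?_
      intro w hw hw'
      rcases adj_a.1 hw with ⟨s', rfl⟩ | rfl
      · rcases adj_b.1 hw' with h | h
        · exact absurd h (by simp)
        · exact absurd h (by simp)
      · rcases adj_b.1 hw' with h | h
        · exact absurd h (by simp)
        · exact absurd h (by simp)
    have e3 : χ (b i) ≠ χ (y i) := by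
      refine hpair _ _ hi hi (by simp) (adj_b.2 (Or.inr rfl)) ?_
      intro w hw hw'
      rcases adj_b.1 hw with rfl | rfl
      · rcases adj_a.1 hw'.symm with ⟨s', h⟩ | h
        · exact absurd h (by simp)
        · exact absurd h (by simp)
      · rcases adj_y.1 hw' with h | h | ⟨j', t', h, _⟩
        · exact absurd h (by simp)
        · exact absurd h (by simp)
        · exact absurd h (by simp)
    have e4 : χ (y i) ≠ χ (c i) := by
      refine hpair _ _ hi hi (by simp) (adj_c.2 (Or.inl rfl)).symm ?_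
      intro w hw hw'
      rcases adj_c.1 hw' with rfl | rfl
      · rcases adj_y.1 hw with h | h | ⟨j', t', h, _⟩
        · exact absurd h (by simp)
        · exact absurd h (by simp)
        · exact absurd h (by simp)
      · rcases adj_d.1 hw.symm with h | ⟨s', h⟩
        · exact absurd h (by simp)
        · exact absurd h (by simp)
    have e5 : χ (c i) ≠ χ (d i) := by
      refine hpair _ _ hi hi (by simp) (adj_c.2 (Or.inr rfl)) ?_
      intro w hw hw'
      rcases adj_c.1 hw with rfl | rfl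
      · rcases adj_d.1 hw' with h | ⟨s', h⟩
        · exact absurd h (by simp)
        · exact absurd h (by simp)
      · rcases adj_d.1 hw' with h | ⟨s', h⟩
        · exact absurd h (by simp)
        · exact absurd h (by simp)
    have e6 : χ (d i) ≠ χ (x (i + 1) t) := by
      refine hpair _ _ hi (show i + 1 ≤ M from hi) (by simp) (adj_d.2 (Or.inr ⟨t, rfl⟩)) ?_
      intro w hw hw'
      rcases adj_d.1 hw with rfl | ⟨s', rfl⟩
      · rcases adj_c.1 hw'.symm with h | h
        · exact absurd h (by simp)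
        · exact absurd h (by simp)
      · exact adj_xx.1 hw' rfl
    exact (flip _ _ _ e1 e2).trans ((flip _ _ _ e3 e4).trans (flip _ _ _ e5 e6))
  have hall : ∀ i ≤ M, ∀ s, χ (x i s) = χ (x 0 true) := by
    intro i
    induction i with
    | zero =>
      intro _ s
      rw [hstep 0 (by omega) s true, hstep 0 (by omega) true true]
    | succ i ih =>
      intro hi s
      rw [← hstep i (by omega) true s]
      exact ih (by omega) true
  have hKm : MaxCl C {v | val M v} {v | ∃ j ≤ M, v = x j (τ j)} := by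
    refine ⟨?_, ?_, ?_⟩
    · rintro v ⟨j, hj, rfl⟩
      exact hj
    · rintro u ⟨i, hi, rfl⟩ v ⟨j, hj, rfl⟩ hne
      rw [adj_xx]
      rintro rfl
      exact hne rfl
    · intro w hw h
      have hx0 : x 0 (τ 0) ∈ {v | ∃ j ≤ M, v = x j (τ j)} := ⟨0, by omega, rfl⟩
      have hx1 : x 1 (τ 1) ∈ {v | ∃ j ≤ M, v = x j (τ j)} := ⟨1, hM, rfl⟩
      cases w with
      | x i s =>
        by_cases hs : s = τ i
        · subst hs
          exact ⟨i, hw, rfl⟩
        · exfalso
          have := h (x i (τ i)) ⟨i, hw, rfl⟩ (by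
            intro he
            injection he with _ he
            exact hs he.symm)
          exact adj_xx.1 this rfl
      | y i =>
        exfalso
        obtain ⟨j, hj, hC⟩ := hτ i hw
        have := h (x j (τ j)) ⟨j, hj, rfl⟩ (by simp)
        exact adj_yx.1 this.symm hC
      | a i =>
        exfalso
        have e0 := adj_a.1 (h _ hx0 (by simp)).symm
        have e1 := adj_a.1 (h _ hx1 (by simp)).symm
        rcases e0 with ⟨s, e0⟩ | e0
        · rcases e1 with ⟨s', e1⟩ | e1
          · injection e0 with e0 _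
            injection e1 with e1 _
            omega
          · exact absurd e1 (by simp)
        · exact absurd e0 (by simp)
      | b i =>
        exfalso
        rcases adj_b.1 (h _ hx0 (by simp)).symm with e | e
        · exact absurd e (by simp)
        · exact absurd e (by simp)
      | c i =>
        exfalso
        rcases adj_c.1 (h _ hx0 (by simp)).symm with e | e
        · exact absurd e (by simp)
        · exact absurd e (by simp)
      | d i =>
        exfalso
        have e0 := adj_d.1 (h _ hx0 (by simp)).symm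
        rcases e0 with e0 | ⟨s, e0⟩
        · exact absurd e0 (by simp)
        · injection e0 with e0 _
          omega
  have hnt : ({v | ∃ j ≤ M, v = x j (τ j)} : Set Vx).Nontrivial :=
    ⟨x 0 (τ 0), ⟨0, by omega, rfl⟩, x 1 (τ 1), ⟨1, hM, rfl⟩, by simp⟩
  obtain ⟨u, ⟨i, hi, rfl⟩, v, ⟨j, hj, rfl⟩, hne⟩ := hχ _ hKm hnt
  exact hne ((hall i hi _).trans (hall j hj _).symm)

end Pool.Agent.TH660.SD
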